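import Pool.Agent.Work.MP_74738e_an.Bd.B03
import Pool.Agent.Work.MP_74738e_an.Bd.B01
import Pool.Agent.Work.MP_74738e_an.Bd.B02

/-! MP_74738e_an, Pos: assembly. -/

namespace Pool.MP74738e.Pos

open Filter Topology Set Metric Pool.MP74738e

universe u v

theorem all_batC : StBatC := I_BatC

theorem all_bat : StBat := I_Bat (I_Shear I_Cut)

theorem all_local : StLocal :=
  I_Local I_Zig I_Cut all_batC (I_Grow2 I_Zig all_batC (I_Grow I_Zig I_Cut all_batC)) I_Xi
    (I_Chain I_Zig I_Cut all_batC I_Sub)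

theorem all_map : StMap.{u} :=
  I_Map I_Zig all_batC (I_GrE I_Zig all_bat) (I_LaE I_Zig (I_Shear I_Cut) all_bat) I_Glue.{u}

theorem all_crF : StCrF.{u} := I_CrF I_Zig all_batC I_Sub all_local

theorem all_close : StClose.{u} := I_Close I_Atl.{u} I_Glue.{u} I_Int.{u} I_Push I_Sel.{u}

theorem all_den1 : StDen1.{u} :=
  I_Den1 I_Atl.{u} I_ChR.{u} all_map all_crF (I_Near I_Itf.{u} I_Itb.{u}) I_Grid I_Ent.{u}
    (I_Hol I_Int.{u}) I_Par

theorem all_res : StRes.{u} := I_Res I_Up.{u} (I_Den2 all_close all_den1)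

end Pool.MP74738e.Pos
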