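import Mathlib
import Pool.Agent.Work.MP_74738e_an.Embed

/-!
# MP_74738e_an, the positive half: definitions and statements of the items

For a compact space `X` which is locally bi-Lipschitz to `ℝ^d`, `d ≥ 2`, and `0 < α ≤ (d-1)/d`,
a generic `T ∈ 𝓛_α` has upper metric mean dimension `(1-α) d`.

`R = T⁻¹` is replaced by `R' = Λ ∘ Ξ ∘ R ∘ Γ` near a periodic orbit; `Γ` and `Λ` are compositions of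
shears `x_l ↦ x_l + cut(x) g(x_a)`, and all crossing arguments are made along paths for `R'`.
-/

namespace Pool.MP74738e.Pos

open Filter Topology Set Metric Pool.MP74738e
open scoped ENNReal NNReal

universe u v

/-! ### Definitions -/

/-- `ℝ^d` with the supremum norm -/
abbrev V (d : ℕ) : Type := Fin d → ℝ

/-- zigzag function of period `p` with values in `[-A, A]` -/
noncomputable def zig (p A t : ℝ) : ℝ := A * (4 * |t / p - round (t / p)| - 1)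

/-- cut off function: `1` for `‖x‖ ≤ ρ`, `0` for `‖x‖ ≥ 2 ρ` -/
noncomputable def cut {d : ℕ} (ρ : ℝ) (x : V d) : ℝ := max 0 (min 1 (2 - ‖x‖ / ρ))

/-- shear: the coordinate `l` is changed by a function of the coordinate `a` -/
noncomputable def sh {d : ℕ} (ρ : ℝ) (l a : Fin d) (g : ℝ → ℝ) (x : V d) : V d :=
  Function.update x l (x l + cut ρ x * g (x a))

/-- the coordinate with number `j mod d` -/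
def ix (d : ℕ) [NeZero d] (j : ℕ) : Fin d := ⟨j % d, Nat.mod_lt _ (Nat.pos_of_neZero d)⟩

/-- `n` shears in succession; the `j`-th one (`1 ≤ j ≤ n`) changes the coordinate `o + j` by the
function `g j` of the coordinate `o + j - 1` -/
noncomputable def bat {d : ℕ} [NeZero d] (ρ : ℝ) (o : ℕ) (g : ℕ → ℝ → ℝ) : ℕ → V d → V d
  | 0 => id
  | n + 1 => fun x => sh ρ (ix d (o + n + 1)) (ix d (o + n)) (g (n + 1)) (bat ρ o g n x)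

/-- the functions of the growth map -/
noncomputable def gz (ε b : ℝ) (j : ℕ) : ℝ → ℝ := zig (ε * b ^ (j - 1)) (ε * b ^ j)

/-- the map `Λ ∘ Ξ` -/
noncomputable def Lam {d : ℕ} [NeZero d] (ρ ε F : ℝ) (a : Fin d) (g : ℝ → ℝ) (x : V d) : V d :=
  bat ρ 1 (fun _ => zig ε F) (d - 1) (sh ρ (ix d 1) a g x)

/-- the function `f` crosses the interval `[a, b]` on `[s, t]`, in one of the two directions -/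
def Cro (f : ℝ → ℝ) (s t a b : ℝ) : Prop :=
  s ≤ t ∧ ContinuousOn f (Icc s t) ∧ ((f s ≤ a ∧ b ≤ f t) ∨ (f t ≤ a ∧ b ≤ f s))

/-- centres of the boxes -/
def grid (d : ℕ) (ε W : ℝ) : Set (V d) := {z | ‖z‖ ≤ W ∧ ∀ i, ∃ k : ℤ, z i = k * (4 * ε)}

/-- bi-Lipschitz charts at the points of a finite set -/
structure Atl {X : Type u} [MetricSpace X] (d : ℕ) (O : Finset X) (K r : ℝ) (e : X → V d → X) :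
    Prop where
  one_le : 1 ≤ K
  pos : 0 < r
  zero : ∀ p ∈ O, e p 0 = p
  lip : ∀ p ∈ O, ∀ u v, ‖u‖ ≤ r → ‖v‖ ≤ r → dist (e p u) (e p v) ≤ K * ‖u - v‖
  inv : ∀ p ∈ O, ∀ u v, ‖u‖ ≤ r → ‖v‖ ≤ r → ‖u - v‖ ≤ K * dist (e p u) (e p v)
  opn : ∀ p ∈ O, ∀ u s y, 0 < s → ‖u‖ + s ≤ r → dist y (e p u) < s / K →
    ∃ v, ‖v - u‖ < s ∧ e p v = y
  disj : ∀ p ∈ O, ∀ p' ∈ O, ∀ u v, ‖u‖ ≤ r → ‖v‖ ≤ r → e p u = e p' v → p = p'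

/-- bi-Lipschitz with constant `L` -/
def Bil {X : Type u} [MetricSpace X] (L : ℝ) (T : X → X) : Prop :=
  ∀ x y, dist (T x) (T y) ≤ L * dist x y ∧ dist x y ≤ L * dist (T x) (T y)

/-- the path `γ` crosses the box with centre `z` in the chart at `p` -/
def PC {X : Type u} {d : ℕ} [NeZero d] (e : X → V d → X) (ε : ℝ) (p : X) (z : V d)
    (γ : ℝ → X) (s t : ℝ) : Prop :=
  ∃ x : ℝ → V d, ContinuousOn x (Icc s t) ∧ (∀ τ ∈ Icc s t, γ τ = e p (x τ) ∧ ‖x τ - z‖ ≤ ε) ∧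
    Cro (fun τ => x τ (ix d 0)) s t (z (ix d 0) - ε) (z (ix d 0) + ε)

/-- `G 0 ∘ G 1 ∘ ⋯ ∘ G (n-1)` -/
def itc {X : Type u} (G : ℕ → X → X) : ℕ → X → X
  | 0 => id
  | n + 1 => fun x => itc G n (G n x)

/-- the chart expression `Rm` of the map `R` -/
def ChR {X : Type u} {d : ℕ} (O : Finset X) (r r1 M : ℝ) (e : X → V d → X) (R : X → X)
    (Rm : X → V d → V d) : Prop :=
  0 < r1 ∧ r1 ≤ r ∧ 1 ≤ M ∧ ∀ p ∈ O, Rm p 0 = 0 ∧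
    (∀ u, ‖u‖ ≤ r1 → ‖Rm p u‖ ≤ r ∧ e (R p) (Rm p u) = R (e p u)) ∧
    ∀ u v, ‖u‖ ≤ r1 → ‖v‖ ≤ r1 → ‖Rm p u - Rm p v‖ ≤ M * ‖u - v‖ ∧
      ‖u - v‖ ≤ M * ‖Rm p u - Rm p v‖

/-- conditions on the functions used in `Ξ` -/
def XiOk {d : ℕ} [NeZero d] (M ρ : ℝ) (a : Fin d) (g : ℝ → ℝ) : Prop :=
  (a ≠ ix d 1 ∨ ∀ s t, g s = g t) ∧ (∀ t, |g t| ≤ 4 * M * ρ) ∧ ∀ s t, |g s - g t| ≤ |s - t|

/-- the formula for `R'` in charts -/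
def Form {X : Type u} {d : ℕ} [NeZero d] (O : Finset X) (r r1 M ρ ε b : ℝ) (J : ℕ)
    (e : X → V d → X) (R R' : X → X) (Rm : X → V d → V d) (a : X → Fin d) (g : X → ℝ → ℝ) :
    Prop :=
  ∀ p ∈ O, ∀ u, ‖u‖ ≤ r → ‖bat (40 * M * ρ) 0 (gz ε b) J u‖ ≤ r1 →
    R' (e p u) = e (R p) (Lam (40 * M * ρ) ε (10 * M * ρ) (a (R p)) (g (R p))
      (Rm p (bat (40 * M * ρ) 0 (gz ε b) J u)))

/-- the crossing property of the map `F` -/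
def CrF {X : Type u} {d : ℕ} [NeZero d] (O : Finset X) (e : X → V d → X) (ε W : ℝ)
    (R F : X → X) : Prop :=
  ∀ p ∈ O, ∀ z ∈ grid d ε W, ∀ z' ∈ grid d ε W, ∀ γ s t, PC e ε p z γ s t →
    ∃ s' t', s ≤ s' ∧ t' ≤ t ∧ PC e ε (R p) z' (F ∘ γ) s' t'

/-- forward itineraries of `F` starting at `p` -/
def Itf {X : Type u} {d : ℕ} (e : X → V d → X) (ε W : ℝ) (R F : X → X) (p : X) : Prop :=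
  ∀ w : ℕ → V d, (∀ i, w i ∈ grid d ε W) → ∀ n, ∃ x, ∀ i ≤ n, ∃ u, ‖u - w i‖ ≤ ε ∧
    e (R^[i] p) u = F^[i] x

/-- backward itineraries of `T` -/
def Itb {X : Type u} {d : ℕ} (e : X → V d → X) (ε W : ℝ) (R T : X → X) (p : X) : Prop :=
  ∀ w : ℕ → V d, (∀ i, w i ∈ grid d ε W) → ∀ n, ∃ y, ∀ i ≤ n, ∃ u, ‖u - w i‖ ≤ ε ∧
    e (R^[i] p) u = T^[n - i] y

/-! ### Block A: functions and shears -/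

/-- A1: zigzag functions -/
def StZig : Prop := ∀ p A : ℝ, 0 < p → 0 ≤ A →
  (∀ t, |zig p A t| ≤ A) ∧ (∀ s t, |zig p A s - zig p A t| ≤ 4 * A / p * |s - t|) ∧
  (∀ k : ℤ, zig p A (k * p) = -A) ∧ ∀ k : ℤ, zig p A (k * p + p / 2) = A

/-- A2: the cut off function -/
def StCut : Prop := ∀ (d : ℕ) (ρ : ℝ), 0 < ρ → ∀ x y : V d,
  0 ≤ cut ρ x ∧ cut ρ x ≤ 1 ∧ |cut ρ x - cut ρ y| ≤ ‖x - y‖ / ρ ∧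
  (‖x‖ ≤ ρ → cut ρ x = 1) ∧ (2 * ρ ≤ ‖x‖ → cut ρ x = 0)

/-- A3: shears -/
def StShear : Prop := ∀ (d : ℕ) (ρ A B : ℝ) (l a : Fin d) (g : ℝ → ℝ), 0 < ρ → A ≤ ρ / 2 →
  0 ≤ B → (∀ t, |g t| ≤ A) → (∀ s t, |g s - g t| ≤ B * |s - t|) → (a ≠ l ∨ ∀ s t, g s = g t) →
  ∃ h : V d ≃ V d, (∀ x, h x = sh ρ l a g x) ∧ (∀ x y, ‖h x - h y‖ ≤ (2 + B) * ‖x - y‖) ∧
    (∀ x y, |h.symm x l - h.symm y l| ≤ 2 * ‖x - y‖ + 2 * B * |x a - y a|) ∧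
    (∀ x, ‖h.symm x - x‖ ≤ A) ∧ (∀ x i, i ≠ l → h.symm x i = x i) ∧
    ∀ x, 2 * ρ ≤ ‖x‖ → h x = x

/-- A4: batches of shears -/
def StBat : Prop := ∀ (d : ℕ) [NeZero d], 2 ≤ d → ∀ (ρ A B : ℝ) (o : ℕ) (g : ℕ → ℝ → ℝ),
  0 < ρ → A ≤ ρ / 2 → 0 ≤ B → (∀ j, 1 ≤ j → j < d → (∀ t, |g j t| ≤ A) ∧
    ∀ s t, |g j s - g j t| ≤ B * |s - t|) →
  ∀ n < d, ∃ h : V d ≃ V d, (∀ x, h x = bat ρ o g n x) ∧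
    (∃ L : ℝ, ∀ x y, ‖h x - h y‖ ≤ L * ‖x - y‖) ∧
    (∀ x y, ‖h.symm x - h.symm y‖ ≤ 2 ^ d * (1 + 2 * B) * ‖x - y‖) ∧
    (∀ x, ‖h.symm x - x‖ ≤ A) ∧ ∀ x, 2 * ρ ≤ ‖x‖ → h x = x

/-- A5: continuity and splitting of batches -/
def StBatC : Prop := ∀ (d : ℕ) [NeZero d] (ρ : ℝ) (o : ℕ) (g : ℕ → ℝ → ℝ), 0 < ρ →
  (∀ j, Continuous (g j)) → (∀ n, Continuous (bat (d := d) ρ o g n)) ∧
  (∀ n m (x : V d), bat ρ o g (n + m) x = bat ρ (o + n) (fun j => g (n + j)) m (bat ρ o g n x)) ∧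
  ∀ n (x : V d) i, i ≠ ix d (o + n + 1) → bat ρ o g (n + 1) x i = bat ρ o g n x i

/-- A6: the batches of the growth map -/
def StGrE : Prop := ∀ (d : ℕ) [NeZero d], 2 ≤ d → ∀ (rc ε b : ℝ) (i : ℕ), 0 < rc → 0 < ε →
  4 ≤ b → ε * b ^ ((d - 1) * (i + 1)) ≤ rc / 2 → ∃ h : V d ≃ V d,
  (∀ x, h x = bat rc ((d - 1) * i) (fun j => gz ε b ((d - 1) * i + j)) (d - 1) x) ∧
  (∃ L : ℝ, ∀ x y, ‖h x - h y‖ ≤ L * ‖x - y‖) ∧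
  (∀ x y, ‖h.symm x - h.symm y‖ ≤ 2 ^ d * (1 + 8 * b) * ‖x - y‖) ∧
  (∀ x, ‖h.symm x - x‖ ≤ ε * b ^ ((d - 1) * (i + 1))) ∧ ∀ x, 2 * rc ≤ ‖x‖ → h x = x

/-- A7: the map `Λ ∘ Ξ` -/
def StLaE : Prop := ∀ (d : ℕ) [NeZero d], 2 ≤ d → ∀ (M ρ ε : ℝ) (a : Fin d) (g : ℝ → ℝ), 1 ≤ M →
  0 < ε → ε ≤ ρ → XiOk M ρ a g → ∃ h : V d ≃ V d,
  (∀ x, h x = Lam (40 * M * ρ) ε (10 * M * ρ) a g x) ∧
  (∃ L : ℝ, ∀ x y, ‖h x - h y‖ ≤ L * ‖x - y‖) ∧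
  (∀ x y, ‖h.symm x - h.symm y‖ ≤ 2 ^ d * 400 * M * (ρ / ε) * ‖x - y‖) ∧
  (∀ x, ‖h.symm x - x‖ ≤ 14 * M * ρ) ∧ ∀ x, 80 * M * ρ ≤ ‖x‖ → h x = x

/-! ### Block B: paths -/

/-- B1: crossing an interval exactly -/
def StSub : Prop := ∀ (f : ℝ → ℝ) (s t a b : ℝ), Cro f s t a b → a ≤ b →
  ∃ s' t', s ≤ s' ∧ s' ≤ t' ∧ t' ≤ t ∧
    ((f s' = a ∧ f t' = b) ∨ (f s' = b ∧ f t' = a)) ∧ ∀ τ ∈ Icc s' t', a ≤ f τ ∧ f τ ≤ b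

/-- B2: the growth map -/
def StGrow : Prop := ∀ (d : ℕ) [NeZero d], 2 ≤ d → ∀ (rc ε b : ℝ) (J : ℕ) (z : V d), 0 < ε →
  4 ≤ b → ‖z‖ + 2 * (ε * b ^ J) ≤ rc → ∀ (x : ℝ → V d) (s t : ℝ), ContinuousOn x (Icc s t) →
  (∀ τ ∈ Icc s t, ‖x τ - z‖ ≤ ε) →
  Cro (fun τ => x τ (ix d 0)) s t (z (ix d 0) - ε) (z (ix d 0) + ε) →
  (∀ τ ∈ Icc s t, ∀ i, |bat rc 0 (gz ε b) J (x τ) i - z i| ≤ 2 * (ε * b ^ J)) ∧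
  (∀ τ ∈ Icc s t, ∀ i, i ≠ ix d J →
    |bat rc 0 (gz ε b) J (x τ) i - z i| ≤ 2 * (ε * b ^ (J - 1))) ∧
  (∃ τ ∈ Icc s t, bat rc 0 (gz ε b) J (x τ) (ix d J) ≤ z (ix d J) - ε * b ^ J / 2) ∧
  ∃ τ ∈ Icc s t, z (ix d J) + ε * b ^ J / 2 ≤ bat rc 0 (gz ε b) J (x τ) (ix d J)

/-- B3: the grown path joins the neighbourhoods of two given points -/
def StGrow2 : Prop := ∀ (d : ℕ) [NeZero d], 2 ≤ d → ∀ (rc ε b : ℝ) (J : ℕ) (z : V d), 0 < ε →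
  4 ≤ b → 1 ≤ J → ‖z‖ + 2 * (ε * b ^ J) ≤ rc → ‖z‖ ≤ ε * b ^ J / 4 →
  ∀ (x : ℝ → V d) (s t : ℝ), ContinuousOn x (Icc s t) → (∀ τ ∈ Icc s t, ‖x τ - z‖ ≤ ε) →
  Cro (fun τ => x τ (ix d 0)) s t (z (ix d 0) - ε) (z (ix d 0) + ε) →
  (∀ τ ∈ Icc s t, ‖bat rc 0 (gz ε b) J (x τ)‖ ≤ ‖z‖ + 2 * (ε * b ^ J)) ∧
  (∃ τ ∈ Icc s t, ‖bat rc 0 (gz ε b) J (x τ)‖ ≤ ‖z‖ + 2 * (ε * b ^ (J - 1))) ∧
  ∃ τ ∈ Icc s t, ‖bat rc 0 (gz ε b) J (x τ) - Pi.single (ix d J) (ε * b ^ J / 4)‖ ≤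
    ‖z‖ + 2 * (ε * b ^ (J - 1))

/-- B4: the map `Ξ` -/
def StXi : Prop := ∀ (d : ℕ) [NeZero d], 2 ≤ d → ∀ (M ρ : ℝ) (q : V d), 1 ≤ M → 0 < ρ →
  ρ / (4 * M) ≤ ‖q‖ → ‖q‖ ≤ M * ρ → ∃ (a : Fin d) (g : ℝ → ℝ), XiOk M ρ a g ∧
  ∀ (u v : V d), ‖u‖ ≤ ρ / (64 * M) → ‖v - q‖ ≤ ρ / (64 * M) →
    (u (ix d 1) + g (u a) ≤ -(ρ / (16 * M)) ∧ ρ / (16 * M) ≤ v (ix d 1) + g (v a)) ∨
    (v (ix d 1) + g (v a) ≤ -(ρ / (16 * M)) ∧ ρ / (16 * M) ≤ u (ix d 1) + g (u a))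

/-- B5: the map `Λ` -/
def StChain : Prop := ∀ (d : ℕ) [NeZero d], 2 ≤ d → ∀ (rc ε F H : ℝ) (z : V d), 0 < ε →
  0 ≤ H → H + F ≤ rc → H + ‖z‖ + 2 * ε ≤ F → (∀ i, ∃ k : ℤ, z i = k * ε) →
  ∀ (y : ℝ → V d) (s t : ℝ), ContinuousOn y (Icc s t) → (∀ τ ∈ Icc s t, ‖y τ‖ ≤ H) →
  Cro (fun τ => y τ (ix d 1)) s t (z (ix d 1)) (z (ix d 1) + ε / 2) →
  ∃ s' t', s ≤ s' ∧ t' ≤ t ∧
    (∀ τ ∈ Icc s' t', ‖bat rc 1 (fun _ => zig ε F) (d - 1) (y τ)‖ ≤ H + F ∧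
      ∀ i, i ≠ ix d 0 → |bat rc 1 (fun _ => zig ε F) (d - 1) (y τ) i - z i| ≤ ε / 2) ∧
    Cro (fun τ => bat rc 1 (fun _ => zig ε F) (d - 1) (y τ) (ix d 0)) s' t'
      (z (ix d 0) - 2 * ε) (z (ix d 0) + 2 * ε)

/-- B6: the crossing property in charts -/
def StLocal : Prop := ∀ (d : ℕ) [NeZero d], 2 ≤ d → ∀ (M ρ : ℝ) (J : ℕ), 1 ≤ M → 0 < ρ →
  1 ≤ J → ∀ Rm : V d → V d, Rm 0 = 0 →
  (∀ u v, ‖u‖ ≤ 3 * ρ → ‖v‖ ≤ 3 * ρ → ‖Rm u - Rm v‖ ≤ M * ‖u - v‖ ∧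
    ‖u - v‖ ≤ M * ‖Rm u - Rm v‖) →
  ∃ (a : Fin d) (g : ℝ → ℝ), XiOk M ρ a g ∧
  ∀ (ε b : ℝ), 0 < ε → 512 * M ^ 2 ≤ b → ε * b ^ J = ρ → ∀ z z' : V d,
  ‖z‖ ≤ ρ / (256 * M ^ 2) → ‖z'‖ ≤ ρ / (256 * M ^ 2) → (∀ i, ∃ k : ℤ, z' i = k * ε) →
  ∀ (x : ℝ → V d) (s t : ℝ), ContinuousOn x (Icc s t) → (∀ τ ∈ Icc s t, ‖x τ - z‖ ≤ ε) →
  Cro (fun τ => x τ (ix d 0)) s t (z (ix d 0) - ε) (z (ix d 0) + ε) →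
  ∃ s' t', s ≤ s' ∧ t' ≤ t ∧
    (∀ τ ∈ Icc s' t', ‖bat (40 * M * ρ) 0 (gz ε b) J (x τ)‖ ≤ 3 * ρ ∧
      ‖Lam (40 * M * ρ) ε (10 * M * ρ) a g (Rm (bat (40 * M * ρ) 0 (gz ε b) J (x τ)))‖
        ≤ 20 * M * ρ ∧
      ∀ i, i ≠ ix d 0 → |Lam (40 * M * ρ) ε (10 * M * ρ) a g
        (Rm (bat (40 * M * ρ) 0 (gz ε b) J (x τ))) i - z' i| ≤ ε / 2) ∧
    Cro (fun τ => Lam (40 * M * ρ) ε (10 * M * ρ) a g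
      (Rm (bat (40 * M * ρ) 0 (gz ε b) J (x τ))) (ix d 0)) s' t'
      (z' (ix d 0) - 2 * ε) (z' (ix d 0) + 2 * ε)

/-! ### Block C: charts and glueing -/

/-- C1: charts at the points of a finite set -/
def StAtl : Prop := ∀ (X : Type u) [MetricSpace X] (d : ℕ), LocEuclid (V d) X →
  ∀ O : Finset X, ∃ (K r : ℝ) (e : X → V d → X), Atl d O K r e ∧ ∀ s, 0 < s → s ≤ r →
    Atl d O K s e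

/-- C1b: change of the model space -/
def StMod : Prop := ∀ (X : Type u) [MetricSpace X] (E : Type v) [NormedAddCommGroup E]
  [NormedSpace ℝ E] [FiniteDimensional ℝ E], LocEuclid E X → LocEuclid (V (Module.finrank ℝ E)) X

/-- C2: glueing homeomorphisms in charts -/
def StGlue : Prop := ∀ (X : Type u) [MetricSpace X] (d : ℕ) (O : Finset X) (K r : ℝ)
  (e : X → V d → X), Atl d O K r e → ∀ h : X → (V d ≃ V d),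
  (∀ p ∈ O, ∀ u, r / 2 ≤ ‖u‖ → h p u = u) → ∃ G : X ≃ X,
  (∀ p ∈ O, ∀ u, ‖u‖ ≤ r → G (e p u) = e p (h p u)) ∧
  (∀ x, (∀ p ∈ O, ∀ u, ‖u‖ ≤ r → e p u ≠ x) → G x = x) ∧
  (∀ L : ℝ, 1 ≤ L → (∀ p ∈ O, ∀ u v, ‖h p u - h p v‖ ≤ L * ‖u - v‖) →
    ∀ x y, dist (G x) (G y) ≤ 6 * K ^ 2 * L * dist x y) ∧
  (∀ L : ℝ, 1 ≤ L → (∀ p ∈ O, ∀ u v, ‖(h p).symm u - (h p).symm v‖ ≤ L * ‖u - v‖) →
    ∀ x y, dist (G.symm x) (G.symm y) ≤ 6 * K ^ 2 * L * dist x y) ∧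
  ∀ A : ℝ, 0 ≤ A → (∀ p ∈ O, ∀ u, ‖(h p).symm u - u‖ ≤ A) →
    (∀ x, dist (G x) x ≤ K * A) ∧ ∀ x, dist (G.symm x) x ≤ K * A

/-- C3: the chart expression of a bi-Lipschitz map -/
def StChR : Prop := ∀ (X : Type u) [MetricSpace X] (d : ℕ) (O : Finset X) (K r : ℝ)
  (e : X → V d → X), Atl d O K r e → ∀ (R : X → X) (L : ℝ), Bil L R → (∀ p ∈ O, R p ∈ O) →
  ∃ (r1 M : ℝ) (Rm : X → V d → V d), ChR O r r1 M e R Rm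

/-- C4: the map `T'` -/
def StMap : Prop := ∀ (X : Type u) [MetricSpace X] (d : ℕ) [NeZero d], 2 ≤ d →
  ∀ (O : Finset X) (K r : ℝ) (e : X → V d → X), Atl d O K r e → ∀ (T : X ≃ X) (L : ℝ),
  Bil L T → (∀ p ∈ O, T.symm p ∈ O) → ∀ (r1 M : ℝ) (Rm : X → V d → V d),
  ChR O r r1 M e T.symm Rm → ∀ Kb : ℕ, 1 ≤ Kb → ∃ C : ℝ, 1 ≤ C ∧
  ∀ ρ ε b : ℝ, 0 < ε → 4 ≤ b → ε * b ^ ((d - 1) * Kb) = ρ → 160 * M * ρ ≤ r →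
  ∀ (a : X → Fin d) (g : X → ℝ → ℝ), (∀ q ∈ O, XiOk M ρ (a q) (g q)) →
  ∃ (T' : X ≃ X) (G : ℕ → X → X) (P : X → X), (∃ L', Bil L' T') ∧
    (∀ x, T' x = itc G Kb (T (P x))) ∧
    (∀ i < Kb, ∀ x, dist (G i x) x ≤ C * (ρ / b ^ ((d - 1) * (Kb - 1 - i)))) ∧
    (∀ i < Kb, ∀ x y, dist (G i x) (G i y) ≤ C * b * dist x y) ∧
    (∀ x, dist (P x) x ≤ C * ρ) ∧ (∀ x y, dist (P x) (P y) ≤ C * (ρ / ε) * dist x y) ∧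
    Form O r r1 M ρ ε b ((d - 1) * Kb) e T.symm T'.symm Rm a g

/-- C5: the crossing property of maps close to `R'` -/
def StCrF : Prop := ∀ (X : Type u) [MetricSpace X] (d : ℕ) [NeZero d], 2 ≤ d →
  ∀ (O : Finset X) (K r : ℝ) (e : X → V d → X), Atl d O K r e → ∀ (R : X → X),
  (∀ p ∈ O, R p ∈ O) → (∀ p ∈ O, ∀ q ∈ O, R p = R q → p = q) →
  ∀ (r1 M : ℝ) (Rm : X → V d → V d), ChR O r r1 M e R Rm →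
  ∀ (ρ : ℝ) (J : ℕ), 1 ≤ J → 0 < ρ → 3 * ρ ≤ r1 → 160 * M * ρ ≤ r →
  ∃ (a : X → Fin d) (g : X → ℝ → ℝ), (∀ q ∈ O, XiOk M ρ (a q) (g q)) ∧
  ∀ ε b : ℝ, 0 < ε → 512 * M ^ 2 ≤ b → ε * b ^ J = ρ → ∀ R' : X → X,
  Form O r r1 M ρ ε b J e R R' Rm a g → ∃ θ > (0 : ℝ), ∀ F : X → X, Continuous F →
  (∀ x, dist (F x) (R' x) ≤ θ) → CrF O e ε (ρ / (256 * M ^ 2)) R F

/-! ### Block D: itineraries and entropy -/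

/-- D1: crossing gives itineraries -/
def StItf : Prop := ∀ (X : Type u) [MetricSpace X] (d : ℕ) [NeZero d] (O : Finset X) (K r : ℝ)
  (e : X → V d → X), Atl d O K r e → ∀ (ε W : ℝ), 0 < ε → W + ε ≤ r → ∀ (R F : X → X),
  (∀ p ∈ O, R p ∈ O) → CrF O e ε W R F → ∀ p ∈ O, Itf e ε W R F p

/-- D2: limits -/
def StItb : Prop := ∀ (X : Type u) [MetricSpace X] [CompactSpace X] (d : ℕ) (O : Finset X)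
  (K r : ℝ) (e : X → V d → X), Atl d O K r e → ∀ (ε W : ℝ), 0 < ε → W + ε ≤ r →
  ∀ (R T : X → X), (∀ p ∈ O, R p ∈ O) → Continuous T → ∀ p ∈ O,
  (∀ θ > (0 : ℝ), ∃ S : X ≃ X, (∀ x, dist (S x) (T x) ≤ θ) ∧ Itf e ε W R S.symm p) →
  Itb e ε W R T p

/-- D2b: maps in `𝓛_α` which are close to `T'` -/
def StNear : Prop := ∀ (X : Type u) [MetricSpace X] [CompactSpace X] (d : ℕ) [NeZero d]
  (O : Finset X) (K r : ℝ) (e : X → V d → X), Atl d O K r e → ∀ (ε W : ℝ), 0 < ε → W + ε ≤ r →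
  ∀ R : X → X, (∀ p ∈ O, R p ∈ O) → ∀ p ∈ O, ∀ (N : ℕ) (Φ : X → EuclideanSpace ℝ (Fin N))
  (Kf Lf α : ℝ), 0 < α → (∀ x y, dist x y ≤ Kf * ‖Φ x - Φ y‖) →
  (∀ x y, ‖Φ x - Φ y‖ ≤ Lf * dist x y) → ∀ (T' : X ≃ X) (L' θ : ℝ), Bil L' T' → 0 < θ →
  (∀ F : X → X, Continuous F → (∀ x, dist (F x) (T'.symm x) ≤ θ) → CrF O e ε W R F) →
  ∃ θ' > (0 : ℝ), ∀ S ∈ LAlpha α Φ, (∀ x, ‖Φ (S.1 x) - Φ (T' x)‖ ≤ θ') → Itb e ε W R S.1 p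

/-- D3: number of boxes -/
def StGrid : Prop := ∀ (d : ℕ) (ε W : ℝ), 0 < ε → 0 ≤ W → ∃ S : Finset (V d),
  (∀ z, z ∈ S ↔ z ∈ grid d ε W) ∧ (W / (4 * ε)) ^ d ≤ S.card ∧
  ∀ z ∈ S, ∀ z' ∈ S, z ≠ z' → 4 * ε ≤ ‖z - z'‖

/-- D4: entropy -/
def StEnt : Prop := ∀ (X : Type u) [MetricSpace X] (d : ℕ) (O : Finset X) (K r : ℝ)
  (e : X → V d → X), Atl d O K r e → ∀ (ε W : ℝ), 0 < ε → W + ε ≤ r → ∀ (R T : X → X),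
  (∀ p ∈ O, R p ∈ O) → ∀ p ∈ O, Itb e ε W R T p → ∀ S : Finset (V d), S.Nonempty →
  (∀ z ∈ S, z ∈ grid d ε W) → (∀ z ∈ S, ∀ z' ∈ S, z ≠ z' → 4 * ε ≤ ‖z - z'‖) →
  ((Real.log S.card : ℝ) : EReal) ≤ scaleEntropy T (ε / K)

/-! ### Block E: Hölder estimates and parameters -/

/-- E1: interpolation -/
def StInt : Prop := ∀ (X : Type u) [MetricSpace X] (N : ℕ) (F : X → EuclideanSpace ℝ (Fin N))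
  (s L α : ℝ), 0 < α → α < 1 → 0 ≤ s → 0 ≤ L → (∀ x, ‖F x‖ ≤ s) →
  (∀ x y, ‖F x - F y‖ ≤ L * dist x y) → ∀ x y,
  ‖F x - F y‖ ≤ (2 * s) ^ (1 - α) * L ^ α * dist x y ^ α

/-- E2: the Hölder estimate -/
def StHol : Prop := ∀ (d Kb : ℕ) (α C Lf : ℝ), 2 ≤ d → 1 ≤ Kb → 0 < α → α * d ≤ d - 1 →
  1 ≤ C → 0 ≤ Lf → ∃ C' : ℝ, 0 ≤ C' ∧ ∀ (X : Type u) [MetricSpace X] (N : ℕ)
  (Φ : X → EuclideanSpace ℝ (Fin N)) (T T' P : X → X) (G : ℕ → X → X) (ρ ε b : ℝ), 0 < ε →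
  ε ≤ ρ → 1 ≤ b → (∀ x y, ‖Φ x - Φ y‖ ≤ Lf * dist x y) →
  (∀ x y, dist (T x) (T y) ≤ C * dist x y) → (∀ x, T' x = itc G Kb (T (P x))) →
  (∀ i < Kb, ∀ x, dist (G i x) x ≤ C * (ρ / b ^ ((d - 1) * (Kb - 1 - i)))) →
  (∀ i < Kb, ∀ x y, dist (G i x) (G i y) ≤ C * b * dist x y) →
  (∀ x, dist (P x) x ≤ C * ρ) → (∀ x y, dist (P x) (P y) ≤ C * (ρ / ε) * dist x y) →
  (∀ x, ‖Φ (T' x) - Φ (T x)‖ ≤ C' * ρ) ∧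
  ∀ x y, ‖(Φ (T' x) - Φ (T x)) - (Φ (T' y) - Φ (T y))‖ ≤
    C' * (ρ * ε ^ (-α) * b ^ α) * dist x y ^ α

/-- E3: choice of the parameters -/
def StPar : Prop := ∀ (d : ℕ) (α η : ℝ), 2 ≤ d → 0 < α → α < 1 → 0 < η → ∃ Kb : ℕ, 1 ≤ Kb ∧
  ∀ C κ K b0 ρ0 δ ε0 : ℝ, 0 < κ → 1 ≤ K → 0 < ρ0 → 0 < δ → 0 < ε0 → ∃ ρ ε b : ℝ, 0 < ε ∧
  ε < ε0 ∧ ε ≤ ρ ∧ ρ ≤ ρ0 ∧ b0 ≤ b ∧ 1 ≤ b ∧ ε * b ^ ((d - 1) * Kb) = ρ ∧ C * ρ ≤ δ ∧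
  C * (ρ * ε ^ (-α) * b ^ α) ≤ δ ∧ 1 ≤ κ * ρ / (4 * ε) ∧
  ((1 - α) * d - η) * |Real.log (ε / K)| ≤ Real.log ((κ * ρ / (4 * ε)) ^ d)

/-! ### Block F: the closing lemma -/

/-- F1: pushing a point to another one along a segment -/
def StPush : Prop := ∀ (d : ℕ) (U W : V d), U ≠ W → ∃ h : V d ≃ V d, h W = U ∧
  (∀ x y, ‖h x - h y‖ ≤ 2 ^ 8 * ‖x - y‖) ∧ (∀ x y, ‖h.symm x - h.symm y‖ ≤ 2 ^ 8 * ‖x - y‖) ∧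
  (∀ x, ‖h.symm x - x‖ ≤ ‖U - W‖) ∧
  ∀ x, (∀ c ∈ Icc (0 : ℝ) 1, ‖U - W‖ / 4 ≤ ‖x - (W + c • (U - W))‖) → h x = x

/-- F2: almost returning orbits -/
def StSel : Prop := ∀ (X : Type u) [MetricSpace X] [CompactSpace X] [Nonempty X] (d : ℕ)
  (T : X → X), (∀ z : X, ∃ (K r : ℝ) (e : X → V d → X), Atl d {z} K r e) →
  ∃ (z : X) (K r : ℝ) (e : X → V d → X), Atl d {z} K r e ∧ ∀ η > (0 : ℝ), ∃ (x : X) (m : ℕ)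
    (U W : V d), 1 ≤ m ∧ ‖U‖ ≤ r / 4 ∧ ‖W‖ ≤ r / 4 ∧ e z U = x ∧ e z W = T^[m] x ∧
    ‖U - W‖ < η ∧ ∀ l, 1 ≤ l → l < m → ∀ c ∈ Icc (0 : ℝ) 1, ∀ v,
      ‖v - (W + c • (U - W))‖ < ‖U - W‖ / 4 → e z v ≠ T^[l] x

/-- F3: the closing lemma -/
def StClose : Prop := ∀ (X : Type u) [MetricSpace X] [CompactSpace X] [Nonempty X] (d : ℕ),
  LocEuclid (V d) X → ∀ (N : ℕ) (Φ : X → EuclideanSpace ℝ (Fin N)) (Lf : ℝ),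
  (∀ x y, ‖Φ x - Φ y‖ ≤ Lf * dist x y) → ∀ (T : X ≃ X) (L α δ : ℝ), Bil L T → 0 < α → α < 1 →
  0 < δ → ∃ (T' : X ≃ X) (x : X) (m : ℕ), (∃ L', Bil L' T') ∧ 1 ≤ m ∧ T'^[m] x = x ∧
    (∀ x, ‖Φ (T' x) - Φ (T x)‖ ≤ δ) ∧
    ∀ x y, ‖(Φ (T' x) - Φ (T x)) - (Φ (T' y) - Φ (T y))‖ ≤ δ * dist x y ^ α

/-! ### Block G: the theorem -/

/-- G1: upper bound for Hölder maps -/
def StUp : Prop := ∀ (X : Type u) [MetricSpace X] [CompactSpace X] [Nonempty X] (d : ℕ)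
  (A α C : ℝ), Packing A d X → 0 < α → α < 1 → ∀ T : X → X,
  (∀ x y, dist (T x) (T y) ≤ C * dist x y ^ α) →
  upperMdim T ≤ (((1 - α) * d : ℝ) : EReal)

/-- G2: maps with a periodic point -/
def StDen1 : Prop := ∀ (X : Type u) [MetricSpace X] [CompactSpace X] (d : ℕ), 2 ≤ d →
  LocEuclid (V d) X → ∀ (N : ℕ) (Φ : X → EuclideanSpace ℝ (Fin N)) (Kf Lf α : ℝ),
  (∀ x y, dist x y ≤ Kf * ‖Φ x - Φ y‖) → (∀ x y, ‖Φ x - Φ y‖ ≤ Lf * dist x y) → 0 < α →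
  α * d ≤ d - 1 → ∀ (T : X ≃ X) (L : ℝ), Bil L T → ∀ (x : X) (m : ℕ), 1 ≤ m → T^[m] x = x →
  ∀ δ η : ℝ, 0 < δ → 0 < η → ∃ (T' : X ≃ X), (∃ L', Bil L' T') ∧
    (∀ x, ‖Φ (T' x) - Φ (T x)‖ ≤ δ) ∧
    (∀ x y, ‖(Φ (T' x) - Φ (T x)) - (Φ (T' y) - Φ (T y))‖ ≤ δ * dist x y ^ α) ∧
    ∃ θ > (0 : ℝ), ∃ ε > (0 : ℝ), ε < η ∧ ∀ S ∈ LAlpha α Φ,
      (∀ x, ‖Φ (S.1 x) - Φ (T' x)‖ ≤ θ) →
      ((((1 - α) * d - η) * |Real.log ε| : ℝ) : EReal) ≤ scaleEntropy S.1 ε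

/-- G3: density -/
def StDen2 : Prop := ∀ (X : Type u) [MetricSpace X] [CompactSpace X] [Nonempty X] (d : ℕ),
  2 ≤ d → LocEuclid (V d) X → ∀ (N : ℕ) (Φ : X → EuclideanSpace ℝ (Fin N)) (Kf Lf α : ℝ),
  (∀ x y, dist x y ≤ Kf * ‖Φ x - Φ y‖) → (∀ x y, ‖Φ x - Φ y‖ ≤ Lf * dist x y) → 0 < α →
  α * d ≤ d - 1 → ∀ T ∈ bilipHomeos α Φ, ∀ δ η : ℝ, 0 < δ → 0 < η → ∃ T' ∈ bilipHomeos α Φ,
    edist T' T ≤ ENNReal.ofReal δ ∧ ∃ θ > (0 : ℝ), ∃ ε > (0 : ℝ), ε < η ∧ ∀ S ∈ LAlpha α Φ,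
      edist S T' ≤ ENNReal.ofReal θ →
      ((((1 - α) * d - η) * |Real.log ε| : ℝ) : EReal) ≤ scaleEntropy S.1 ε

/-- G4: residual set -/
def StRes : Prop := ∀ (X : Type u) [MetricSpace X] [CompactSpace X] [Nonempty X] (d : ℕ),
  2 ≤ d → LocEuclid (V d) X → ∀ (N : ℕ) (Φ : X → EuclideanSpace ℝ (Fin N)) (Kf Lf α : ℝ),
  (∀ x y, dist x y ≤ Kf * ‖Φ x - Φ y‖) → (∀ x y, ‖Φ x - Φ y‖ ≤ Lf * dist x y) → 0 < α →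
  α * d ≤ d - 1 →
  {T : LAlpha α Φ | upperMdim T.1.1 = (((1 - α) * d : ℝ) : EReal)} ∈ residual (LAlpha α Φ)

end Pool.MP74738e.Pos
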